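import Pool.Agent.H99.GEN.GrC
import Pool.Agent.H3.W2.H63.STAT.CloF
import Pool.Agent.H31.W1.H80.GEN.Chn

/-!
# Closed labels from chains; gradients and velocities for classes

`clo1`: a chain of two-sided labels whose radius is (at least) the window gives exact closed labels
(`LbP`) of every coordinate of the chain over the coordinates before it, for arbitrary sides.
`gr_cls`: the class form of `lb_of_p`.
-/

set_option autoImplicit false

namespace Pool.W.GRD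

open Pool.GRD

open Finset Real MvPolynomial
open Pool.Agent.H49.Ent Pool.Agent.H32.Dense Pool.STK Pool.KA Pool.KSAT Pool.K2S Pool.PB Pool.S6C
open Pool.GEN
open Pool.FLF (Fam.sub)
open Pool.UNJ (ceI Tub)
open Pool.STAT (PN TriN Bx)
open Pool.STAT.CLO

variable {m J : ℕ}

/-! ### Back to the coordinates of the family -/


/-- **Exact closed labels from one chain**, at a radius which is at least the window. -/
theorem clo1 (n K : ℕ) : ∃ c' : ℕ, 1 ≤ c' ∧ ∀ (m J : ℕ) (F : Pool.KA.Fam m J) (c : ℕ → Fin m)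
    (Kv : ℕ → ℕ) (a w₀ e : ℕ) (g : ℕ → ℕ) (A : F.Ω → Prop)
    (G : Pool.GEN.PtT F → ℕ → MvPolynomial (Option (Fin m)) ℝ)
    (H : Pool.GEN.LnT F → ℕ → MvPolynomial (Option (Fin m)) ℝ), w₀ ≤ a → a ≤ J → Pool.STAT.CLO.Inj c n →
    (∀ i < n, Kv i ≤ K) → Pool.W.GEN.ChOK F c n Kv a w₀ e g A G H →
    ∃ (z : Pool.GEN.PtT F → Pool.STAT.CLO.LV) (z' : Pool.GEN.LnT F → Pool.STAT.CLO.LV) (P : Pool.STAT.CLO.LV → ℕ → Pool.STAT.PN) (B : F.Ω → Prop), Pool.K2S.Sub B A ∧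
      Pool.K2S.Pe F.p A ≤ c' * Pool.K2S.Pe F.p B ∧ (∀ v, Pool.STAT.TriN (P v)) ∧ (∀ v j, (P v j).totalDegree ≤ c') ∧
      (∀ ω, B ω → z (Pool.PB.ptr F J ω) = z' (Pool.KSAT.slam F a ω)) ∧
      (∀ ω, B ω → Pool.STAT.CLO.Nr c' 1 (Pool.STAT.CLO.gg a g) (P (z (Pool.PB.ptr F J ω))) (Pool.STAT.CLO.Gs c n a G (Pool.PB.ptr F J ω)) (n + 1)) ∧
      ∀ i < n, c' ≤ g i → Pool.GRD.LbP F ((range i).image c) (c i) c' J a (g i - c') B z z'
        (fun v => Pool.GRD.tb c (P v (i + 1))) := by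
  obtain ⟨s₀, hraw⟩ := Pool.W.STAT.CLO.raw_of n K
  obtain ⟨c₁, hc₁, hcore⟩ := Pool.STAT.CLO.core n K (n + 1) le_rfl
  obtain ⟨c₂, hc₂⟩ := pow_unbounded_of_one_lt (1 + ((c₁ : ℝ) * 2 ^ s₀ * 1) ^ c₁)
    (one_lt_two (α := ℝ))
  obtain ⟨c', hc'⟩ : ∃ c', c' = c₁ * 2 ^ s₀ + c₁ + c₂ := ⟨_, rfl⟩
  have hc10 : (1 : ℝ) ≤ c₁ := by exact_mod_cast hc₁
  refine ⟨c', by omega, ?_⟩
  intro m J F c Kv a w₀ e g A G H hw ha hc hK h
  obtain ⟨z, z', P, B, hBA, hPe, hcld⟩ := hcore F.Ω (Pool.GEN.PtT F) (Pool.GEN.LnT F) F.p (2 ^ s₀) A (Pool.PB.ptr F J)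
    (Pool.KSAT.slam F a) (Pool.STAT.CLO.tp a) (Pool.STAT.CLO.tl a) (Pool.STAT.CLO.gg a g) (Pool.STAT.CLO.Gs c n a G) (fun s => Pool.STAT.CLO.Hs c n H (Pool.STAT.CLO.crs w₀ a s)) F.isLaw
    (one_le_pow₀ (by norm_num)) (hraw m J F c Kv a w₀ e g A G H hw ha hc hK h)
  have hnr : ∀ ω, B ω → Pool.STAT.CLO.Nr c' 1 (Pool.STAT.CLO.gg a g) (P (z (Pool.PB.ptr F J ω))) (Pool.STAT.CLO.Gs c n a G (Pool.PB.ptr F J ω)) (n + 1) := by
    intro ω hω
    obtain ⟨h1, h2⟩ := hcld.near ω hω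
    refine ⟨h1, fun j hj1 hj r hr b hb => (h2 j hj1 hj r hr b hb).trans ?_⟩
    refine div_le_div_of_nonneg_right ?_ (by positivity)
    have e1 : (c₁ : ℝ) * 2 ^ s₀ * r ≤ c' * 1 * r := by
      refine mul_le_mul_of_nonneg_right ?_ (by linarith)
      rw [mul_one, hc']
      push_cast
      have : (0 : ℝ) ≤ c₂ := Nat.cast_nonneg _
      linarith
    have e2 : (1 : ℝ) ≤ c' * 1 * r := by
      have e3 : (1 : ℝ) ≤ c' := by exact_mod_cast (by omega : 1 ≤ c')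
      nlinarith
    refine (pow_le_pow_left₀ (by positivity) e1 c₁).trans (pow_le_pow_right₀ e2 ?_)
    omega
  refine ⟨z, z', P, B, hBA, hPe.trans ?_, hcld.tri, fun v j => (hcld.deg v j).trans (by omega),
    hcld.cls, hnr, fun i hi hgi => ⟨fun v => (Pool.GRD.tb_deg c _).trans ((hcld.deg v _).trans (by omega)),
      fun v b b' h0 hb => Pool.GRD.tb_dep c (hcld.tri v (i + 1)) h0 hb, hcld.cls, fun ω hω => ?_⟩⟩
  · refine mul_le_mul_of_nonneg_right ?_ (Pool.K2S.Pe_nonneg F.isLaw _)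
    exact_mod_cast (by omega : c₁ ≤ c')
  · show |F.x ω (c i) - eval (Pool.GEN.bt F ω) (Pool.GRD.tb c (P (z' (Pool.KSAT.slam F a ω)) (i + 1)))| ≤ _
    rw [← hcld.cls ω hω, Pool.GRD.eval_tb]
    obtain ⟨X, hX⟩ : ∃ X : ℕ → ℝ, X = Pool.STAT.cx F (fun i => c (i - 1)) ω := ⟨_, rfl⟩
    have hXp : Pool.GRD.pb c (Pool.GEN.bt F ω) = X := by
      funext l
      rw [hX]
      unfold Pool.GRD.pb
      split_ifs with h1
      · rw [h1]
        exact (if_pos rfl).symm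
      · exact (if_neg h1).symm
    rw [hXp]
    have hbox : ∀ l ≤ n, Pool.STAT.CLO.Bxr 1 (Pool.STAT.CLO.gg a g) (Pool.STAT.CLO.Gs c n a G (Pool.PB.ptr F J ω)) l X := by
      intro l hl j hj
      rcases Nat.eq_zero_or_pos j with h0 | h0
      · subst h0
        have h1 : X 0 = F.t ω := by
          rw [hX]
          exact if_pos rfl
        have h2 : Pool.STAT.CLO.gg a g 0 = a := if_pos rfl
        unfold Pool.STAT.CLO.Gs
        rw [h1, h2, Pool.STAT.CLO.sy_zero, eval_C, Pool.STAT.CLO.tp_eq]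
        exact Pool.STAT.CLO.t_cell F ha ω
      · rw [hX]
        exact Pool.W.STAT.CLO.pos_of hc h (hBA ω hω) h0 (by omega)
    obtain ⟨-, h2⟩ := hcld.near ω hω
    have h3 := h2 (i + 1) (by omega) (by omega) 1 le_rfl X (hbox (i + 1) (by omega))
    have h4 := Pool.W.STAT.CLO.pos_of hc h (hBA ω hω) (i := i + 1) (by omega) (by omega)
    rw [← hX] at h4
    have h5 : X (i + 1) = F.x ω (c i) := by
      rw [hX]
      exact if_neg (by omega)
    have h6 : Pool.STAT.CLO.gg a g (i + 1) = g i := if_neg (by omega)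
    rw [h6] at h3 h4
    rw [h5] at h4
    have h7 : |F.x ω (c i) - eval X (P (z (Pool.PB.ptr F J ω)) (i + 1))| ≤
        (1 + ((c₁ : ℝ) * 2 ^ s₀ * 1) ^ c₁) / 2 ^ g i := by
      rw [add_div]
      rw [abs_le] at h3 h4 ⊢
      constructor <;> linarith [h3.1, h3.2, h4.1, h4.2]
    refine h7.trans ?_
    rw [div_le_div_iff₀ (by positivity) (by positivity), one_mul]
    have h8 : (2 : ℝ) ^ g i = 2 ^ (g i - c') * 2 ^ c' := by
      rw [← pow_add, Nat.sub_add_cancel hgi]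
    rw [h8, mul_comm]
    refine mul_le_mul_of_nonneg_left ?_ (by positivity)
    exact hc₂.le.trans (pow_le_pow_right₀ (by norm_num) (by omega))

/-! ### The class form -/


end Pool.W.GRD
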